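import Mathlib
import Pool.Agent.L0h61.AED.Final

/-!
# The ratio of central to ordinary codimensions of `M_k(F)` tends to `1 - 1/k^2`
-/

set_option autoImplicit false

namespace Pool.Agent.Results.MP_aed2d0_al.LimitValue

/-- For every characteristic-zero field `F` and `k ≥ 1`, the ratio of the central codimensions to
the ordinary codimensions of `k × k` matrices over `F` converges to `1 - 1/k^2`. -/
theorem result (F : Type) [Field F] [CharZero F] (k : ℕ) (hk : 1 ≤ k) :
    Filter.Tendsto (fun n : ℕ =>
      (Module.finrank F (Submodule.span F (Set.range (fun σ : Equiv.Perm (Fin n) =>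
          fun x : Fin n → Matrix (Fin k) (Fin k) F =>
            Submodule.mkQ (Subalgebra.toSubmodule (Subalgebra.center F (Matrix (Fin k) (Fin k) F)))
              (List.ofFn (fun i => x (σ i))).prod))) : ℝ) /
      (Module.finrank F (Submodule.span F (Set.range (fun σ : Equiv.Perm (Fin n) =>
          fun x : Fin n → Matrix (Fin k) (Fin k) F =>
            (List.ofFn (fun i => x (σ i))).prod))) : ℝ))
      Filter.atTop (nhds (1 - 1 / (k : ℝ) ^ 2)) :=
  Pool.Agent.L0h61.AED.limit_all F k hk

end Pool.Agent.Results.MP_aed2d0_al.LimitValue
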